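import Pool.Agent.helper17.EXC.Spec

/-!
# Row en:RFL
-/

set_option autoImplicit false

open Finset

namespace Pool.Agent.EXC

theorem RFL : RFL_stmt := by
  intro n C hC i v w
  have h2 : ip C (sr i) (sr i) = 2 := ip_sr_self C i
  refine ⟨?_, ?_, ?_, ?_, ?_⟩
  · unfold rf
    rw [ip_sub_left, ip_sub_right, ip_sub_right, ip_smul_left, ip_smul_left, ip_smul_right, ip_smul_right, h2,
      ip_comm C (sr i) w]
    ring
  · unfold rf
    rw [ip_sub_left, ip_smul_left, h2]
    have h3 : ip C v (sr i) - ip C v (sr i) * 2 = -ip C v (sr i) := by ring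
    rw [h3, neg_smul, sub_neg_eq_add, sub_add_cancel]
  · unfold rf
    rw [ip_neg_left, neg_smul, neg_sub, sub_neg_eq_add, neg_add_eq_sub]
  · unfold rf
    rw [ip_add_left, add_smul]
    abel
  · intro j hj
    unfold rf sr
    simp [Pi.single_apply, hj]

end Pool.Agent.EXC
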